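import Pool.Agent.Helper72_AK.C2
import Pool.Agent.Helper41_AK.C3

set_option autoImplicit false

/-!
Squad AK, C4: from the tangential equations to the whole tower.
-/

namespace Pool.Agent.AK.H17

open Complex Set Topology
open Pool.Agent.AK.H72 Pool.Agent.AK.H41

/-! ### The linear part of the tower expression -/

/-- the linear part of `Dk` -/
noncomputable def Hk (ρ : C2 → ℝ) (n : ℕ → C2 → ℂ) (k : ℕ) (i : Fin 2) : C2 → ℂ :=
  fun p => dzb i (n k) p + ((k : ℂ) + 1) * fC ρ i p * n (k + 1) p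
    + (k : ℂ) * (fE ρ i p - fA ρ i p) * n k p
    - ((k - 1 : ℕ) : ℂ) * fB ρ i p * n (k - 1) p

theorem Dk_eq (ρ : C2 → ℝ) (n : ℕ → C2 → ℂ) (k : ℕ) (i : Fin 2) (p : C2) :
    Dk ρ n k i p = Hk ρ n k i p + (if k = 0 then fA ρ i p else 0) +
      (if k = 1 then fB ρ i p else 0) := rfl

/-- the row identity for a family of `(0,1)`-forms -/
def Row (ρ : C2 → ℝ) (F : ℕ → Fin 2 → C2 → ℂ) (k : ℕ) (p : C2) : Prop :=
  dzb 0 (F k 1) p - dzb 1 (F k 0) p
      + ((k : ℂ) + 1) * (fC ρ 0 p * F (k + 1) 1 p - fC ρ 1 p * F (k + 1) 0 p)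
      + (k : ℂ) * ((fE ρ 0 p - fA ρ 0 p) * F k 1 p - (fE ρ 1 p - fA ρ 1 p) * F k 0 p)
      - ((k - 1 : ℕ) : ℂ) * (fB ρ 0 p * F (k - 1) 1 p - fB ρ 1 p * F (k - 1) 0 p) = 0

theorem dzb_zero (i : Fin 2) (p : C2) : dzb i (fun _ : C2 => (0 : ℂ)) p = 0 :=
  (hd_const i 0 p).e

/-- the normal component of a `(0,1)`-form -/
theorem normal {r0 r1 s0 s1 g h0 h1 : ℂ} (hg : g ≠ 0) (e : g = r0 * s0 + r1 * s1)
    (hw : h0 * s1 - h1 * s0 = 0) :
    h0 = (r0 * h0 + r1 * h1) / g * s0 ∧ h1 = (r0 * h0 + r1 * h1) / g * s1 := by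
  constructor
  · rw [div_mul_eq_mul_div, eq_div_iff hg, e]
    linear_combination r1 * hw
  · rw [div_mul_eq_mul_div, eq_div_iff hg, e]
    linear_combination (-r0) * hw

theorem HD.pow {k : Fin 2} {f : C2 → ℂ} {f' : ℂ} {p : C2} (hf : HD k f f' p) (n : ℕ) :
    HD k (fun q => f q ^ (n + 1)) (((n : ℂ) + 1) * f p ^ n * f') p := by
  induction n with
  | zero => simpa using hf
  | succ n ih =>
    have := ih.mul hf
    have e : (fun q => f q ^ (n + 1 + 1)) = fun q => f q ^ (n + 1) * f q := by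
      funext q; rw [pow_succ]
    rw [e]
    convert this using 1
    push_cast
    ring

section

variable {ρ : C2 → ℝ}

/-- if the forms are multiples of `dbar rho`, the row identity says that `H[n]` is a multiple of
`dbar rho` -/
theorem row_wedge (hρ : ContDiff ℝ ((⊤ : ℕ∞) : WithTop ℕ∞) ρ) {U : Set C2} (hU : IsOpen U)
    {F : ℕ → Fin 2 → C2 → ℂ} {n : ℕ → C2 → ℂ} {k : ℕ} {p : C2} (hp : p ∈ U)
    (hn : DifferentiableAt ℝ (n k) p)
    (h0 : ∀ q ∈ U, ∀ l, F k l q = n k q * rjb ρ l q)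
    (h1 : ∀ l, F (k + 1) l p = n (k + 1) p * rjb ρ l p)
    (h2 : ∀ l, F (k - 1) l p = n (k - 1) p * rjb ρ l p)
    (hr : Row ρ F k p) :
    Hk ρ n k 0 p * rjb ρ 1 p - Hk ρ n k 1 p * rjb ρ 0 p = 0 := by
  have hev : ∀ l, F k l =ᶠ[nhds p] fun q => n k q * rjb ρ l q := by
    intro l
    filter_upwards [hU.mem_nhds hp] with q hq
    exact h0 q hq l
  have hrj : ∀ i l, HD i (rjb ρ l) (dzb i (rjb ρ l) p) p := fun i l =>
    hd_self ((sm_rjb hρ l p).differentiableAt (by norm_num))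
  have hd : ∀ i l, HD i (F k l) (dzb i (n k) p * rjb ρ l p + n k p * dzb i (rjb ρ l) p) p :=
    fun i l => ((hd_self hn).mul (hrj i l)).congr (hev l)
  have hcomm : dzb 0 (rjb ρ 1) p = dzb 1 (rjb ρ 0) p :=
    dzb_comm ((sm_rc hρ p).of_le (by norm_cast))
  unfold Row at hr
  rw [(hd 0 1).e, (hd 1 0).e, h0 p hp 0, h0 p hp 1, h1 0, h1 1, h2 0, h2 1, hcomm] at hr
  unfold Hk
  linear_combination hr

/-- the linear row identity -/
theorem row_lin (hc2 : C2Stmt) (hρ : ContDiff ℝ ((⊤ : ℕ∞) : WithTop ℕ∞) ρ) {U : Set C2}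
    (hU : IsOpen U) (hg : ∀ p ∈ U, g2 ρ p ≠ 0) {n : ℕ → C2 → ℂ}
    (hn : ∀ k, ContDiffOn ℝ 2 (n k) U) (k : ℕ) {p : C2} (hp : p ∈ U) :
    Row ρ (Hk ρ n) k p := by
  have e1 := hc2 ρ hρ U hU hg n hn k p hp
  have e0 := hc2 ρ hρ U hU hg (fun _ _ => 0) (fun k => contDiffOn_const) k p hp
  have hgp := hg p hp
  have hA := fun i => (sm_fA hρ i p hgp).differentiableAt (n := ((⊤ : ℕ∞) : WithTop ℕ∞)) (by norm_num)
  have hB := fun i => (sm_fB hρ i p hgp).differentiableAt (n := ((⊤ : ℕ∞) : WithTop ℕ∞)) (by norm_num)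
  have hC := fun i => (sm_fC hρ i p).differentiableAt (n := ((⊤ : ℕ∞) : WithTop ℕ∞)) (by norm_num)
  have hE := fun i => (sm_fE hρ i p hgp).differentiableAt (n := ((⊤ : ℕ∞) : WithTop ℕ∞)) (by norm_num)
  have hcp : ∀ k, ContDiffAt ℝ 2 (n k) p := fun k => (hn k).contDiffAt (hU.mem_nhds hp)
  have hd0 : ∀ k, DifferentiableAt ℝ (n k) p := fun k => (hcp k).differentiableAt (by norm_num)
  have hd1 : ∀ i k, DifferentiableAt ℝ (dzb i (n k)) p := fun i k =>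
    (cda_dzb (m := 1) i (hcp k) (by norm_num)).differentiableAt (by norm_num)
  have dn : ∀ (i j : Fin 2) k, DifferentiableAt ℝ (Dk ρ n k i) p := fun i j k =>
    (hd_Dk (ρ := ρ) k i j hd0 (hd1 i) (hA i) (hB i) (hC i) (hE i)).d
  have d0 : ∀ (i j : Fin 2) k, DifferentiableAt ℝ (Dk ρ (fun _ _ => 0) k i) p := fun i j k =>
    (hd_Dk (ρ := ρ) k i j (fun _ => differentiableAt_const _)
      (fun _ => by
        have : dzb i (fun _ : C2 => (0 : ℂ)) = fun _ => 0 := funext fun q => dzb_zero i q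
        rw [this]; exact differentiableAt_const _) (hA i) (hB i) (hC i) (hE i)).d
  have hD0 : ∀ k i q, Dk ρ (fun _ _ => 0) k i q =
      (if k = 0 then fA ρ i q else 0) + (if k = 1 then fB ρ i q else 0) := by
    intro k i q
    rw [Dk_eq]
    unfold Hk
    rw [dzb_zero]
    ring
  have hH : ∀ k i q, Hk ρ n k i q = Dk ρ n k i q - Dk ρ (fun _ _ => 0) k i q := by
    intro k i q
    rw [hD0, Dk_eq]
    ring
  have hH' : ∀ k i, Hk ρ n k i = fun q => Dk ρ n k i q - Dk ρ (fun _ _ => 0) k i q :=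
    fun k i => funext fun q => hH k i q
  have hdz : ∀ (j i : Fin 2) k, dzb j (Hk ρ n k i) p =
      dzb j (Dk ρ n k i) p - dzb j (Dk ρ (fun _ _ => 0) k i) p := by
    intro j i k
    rw [hH']
    exact ((hd_self (dn i j k)).sub (hd_self (d0 i j k))).e
  unfold Row
  rw [hdz, hdz, hH, hH, hH, hH, hH, hH]
  linear_combination e1 - e0

end

/-! ### The iteration -/

/-- the normal components -/
noncomputable def ns (ρ : C2 → ℝ) (c : ℕ → C2 → ℂ) : ℕ → ℕ → C2 → ℂ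
  | 0, k, p => (rj ρ 0 p * Dk ρ c k 0 p + rj ρ 1 p * Dk ρ c k 1 p) / g2 ρ p
  | i + 1, k, p => (rj ρ 0 p * Hk ρ (ns ρ c i) k 0 p + rj ρ 1 p * Hk ρ (ns ρ c i) k 1 p) / g2 ρ p

/-- the corrected functions -/
noncomputable def cs (ρ : C2 → ℝ) (c : ℕ → C2 → ℂ) : ℕ → ℕ → C2 → ℂ
  | 0, k, p => c k p
  | i + 1, k, p => cs ρ c i k p +
      ((-1) ^ (i + 1) / ((i + 1).factorial : ℂ)) * (rc ρ p ^ (i + 1) * ns ρ c i k p)

section

variable {ρ : C2 → ℝ} {c : ℕ → C2 → ℂ} {U : Set C2}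

theorem cd_Hk (hρ : ContDiff ℝ ((⊤ : ℕ∞) : WithTop ℕ∞) ρ) (hU : IsOpen U)
    (hg : ∀ p ∈ U, g2 ρ p ≠ 0) {n : ℕ → C2 → ℂ} {r : ℕ}
    (hn : ∀ k, ContDiffOn ℝ ((r + 1 : ℕ) : WithTop ℕ∞) (n k) U) (k : ℕ) (i : Fin 2) :
    ContDiffOn ℝ (r : WithTop ℕ∞) (Hk ρ n k i) U := by
  have hle : ((r : ℕ) : WithTop ℕ∞) ≤ ((⊤ : ℕ∞) : WithTop ℕ∞) := by exact_mod_cast le_top
  have hn' : ∀ k, ContDiffOn ℝ (r : WithTop ℕ∞) (n k) U := fun k =>
    (hn k).of_le (by exact_mod_cast Nat.le_succ r)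
  have h1 : ContDiffOn ℝ (r : WithTop ℕ∞) (dzb i (n k)) U :=
    cd_dzb hU (by push_cast; exact le_rfl) (hn k) i
  have hA := (cd_fA hρ i hU hg).of_le hle
  have hB := (cd_fB hρ i hU hg).of_le hle
  have hC := (cd_fC hρ i hU).of_le hle
  have hE := (cd_fE hρ i hU hg).of_le hle
  unfold Hk
  exact ((h1.add ((contDiffOn_const.mul hC).mul (hn' (k + 1)))).add
    ((contDiffOn_const.mul (hE.sub hA)).mul (hn' k))).sub
    ((contDiffOn_const.mul hB).mul (hn' (k - 1)))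

theorem cd_ns (hρ : ContDiff ℝ ((⊤ : ℕ∞) : WithTop ℕ∞) ρ) (hU : IsOpen U)
    (hg : ∀ p ∈ U, g2 ρ p ≠ 0) {S : ℕ} (hc : ∀ k, ContDiffOn ℝ (S : WithTop ℕ∞) (c k) U) :
    ∀ (i r : ℕ), r + 1 + i ≤ S → ∀ k, ContDiffOn ℝ (r : WithTop ℕ∞) (ns ρ c i k) U := by
  intro i
  induction i with
  | zero =>
    intro r hr k
    have hle : ((r : ℕ) : WithTop ℕ∞) ≤ ((⊤ : ℕ∞) : WithTop ℕ∞) := by exact_mod_cast le_top
    have hc' : ∀ k, ContDiffOn ℝ ((r + 1 : ℕ) : WithTop ℕ∞) (c k) U := fun k =>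
      (hc k).of_le (by exact_mod_cast (by omega : r + 1 ≤ S))
    have hD : ∀ i, ContDiffOn ℝ (r : WithTop ℕ∞) (Dk ρ c k i) U := by
      intro i
      have h1 := cd_Hk hρ hU hg hc' k i
      have hA := (cd_fA hρ i hU hg).of_le hle
      have hB := (cd_fB hρ i hU hg).of_le hle
      have h2 : ContDiffOn ℝ (r : WithTop ℕ∞) (fun p => if k = 0 then fA ρ i p else 0) U := by
        split_ifs
        · exact hA
        · exact contDiffOn_const
      have h3 : ContDiffOn ℝ (r : WithTop ℕ∞) (fun p => if k = 1 then fB ρ i p else 0) U := by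
        split_ifs
        · exact hB
        · exact contDiffOn_const
      exact (h1.add h2).add h3
    exact cd_div ((((cd_rj hρ 0 hU).of_le hle).mul (hD 0)).add
      (((cd_rj hρ 1 hU).of_le hle).mul (hD 1))) ((cd_g2 hρ hU).of_le hle) hg
  | succ i ih =>
    intro r hr k
    have hle : ((r : ℕ) : WithTop ℕ∞) ≤ ((⊤ : ℕ∞) : WithTop ℕ∞) := by exact_mod_cast le_top
    have hn : ∀ k, ContDiffOn ℝ ((r + 1 : ℕ) : WithTop ℕ∞) (ns ρ c i k) U :=
      fun k => ih (r + 1) (by omega) k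
    have hH : ∀ l, ContDiffOn ℝ (r : WithTop ℕ∞) (Hk ρ (ns ρ c i) k l) U :=
      fun l => cd_Hk hρ hU hg hn k l
    exact cd_div ((((cd_rj hρ 0 hU).of_le hle).mul (hH 0)).add
      (((cd_rj hρ 1 hU).of_le hle).mul (hH 1))) ((cd_g2 hρ hU).of_le hle) hg

theorem cd_cs (hρ : ContDiff ℝ ((⊤ : ℕ∞) : WithTop ℕ∞) ρ) (hU : IsOpen U)
    (hg : ∀ p ∈ U, g2 ρ p ≠ 0) {S : ℕ} (hc : ∀ k, ContDiffOn ℝ (S : WithTop ℕ∞) (c k) U) :
    ∀ (i r : ℕ), r + i ≤ S → ∀ k, ContDiffOn ℝ (r : WithTop ℕ∞) (cs ρ c i k) U := by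
  intro i
  induction i with
  | zero =>
    intro r hr k
    exact (hc k).of_le (by exact_mod_cast (by omega : r ≤ S))
  | succ i ih =>
    intro r hr k
    have hle : ((r : ℕ) : WithTop ℕ∞) ≤ ((⊤ : ℕ∞) : WithTop ℕ∞) := by exact_mod_cast le_top
    exact (ih r (by omega) k).add (contDiffOn_const.mul ((((cd_rc hρ U).of_le hle).pow (i + 1)).mul
      (cd_ns hρ hU hg hc i r (by omega) k)))

theorem g2_eq' (p : C2) : g2 ρ p = rj ρ 0 p * rjb ρ 0 p + rj ρ 1 p * rjb ρ 1 p := rfl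

theorem D_ns (hg : ∀ p ∈ U, g2 ρ p ≠ 0) {J : ℕ}
    (ht : ∀ k < J, ∀ p ∈ U, Dk ρ c k 0 p * rjb ρ 1 p - Dk ρ c k 1 p * rjb ρ 0 p = 0) :
    ∀ k < J, ∀ p ∈ U, ∀ l, Dk ρ c k l p = ns ρ c 0 k p * rjb ρ l p := by
  intro k hk p hp l
  obtain ⟨h1, h2⟩ := normal (hg p hp) (g2_eq' p) (ht k hk p hp)
  fin_cases l
  · exact h1
  · exact h2

theorem H_ns (hc2 : C2Stmt) (hρ : ContDiff ℝ ((⊤ : ℕ∞) : WithTop ℕ∞) ρ) (hU : IsOpen U)
    (hg : ∀ p ∈ U, g2 ρ p ≠ 0) {S J : ℕ} (hc : ∀ k, ContDiffOn ℝ (S : WithTop ℕ∞) (c k) U)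
    (hS : 2 ≤ S)
    (ht : ∀ k < J, ∀ p ∈ U, Dk ρ c k 0 p * rjb ρ 1 p - Dk ρ c k 1 p * rjb ρ 0 p = 0) :
    ∀ i, i + 3 ≤ S → ∀ k, k + i + 1 < J → ∀ p ∈ U, ∀ l,
      Hk ρ (ns ρ c i) k l p = ns ρ c (i + 1) k p * rjb ρ l p := by
  intro i
  induction i with
  | zero =>
    intro hi k hk p hp
    have hD := D_ns hg ht
    have hc' : ∀ k, ContDiffOn ℝ 2 (c k) U := fun k => (hc k).of_le (by exact_mod_cast hS)
    have hw := row_wedge hρ hU (F := Dk ρ c) (n := ns ρ c 0) (k := k) hp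
      (((cd_ns hρ hU hg hc 0 1 (by omega) k).contDiffAt (hU.mem_nhds hp)).differentiableAt
        (by norm_num))
      (fun q hq l => hD k (by omega) q hq l) (fun l => hD (k + 1) (by omega) p hp l)
      (fun l => hD (k - 1) (by omega) p hp l) (hc2 ρ hρ U hU hg c hc' k p hp)
    obtain ⟨h1, h2⟩ := normal (hg p hp) (g2_eq' p) hw
    intro l
    fin_cases l
    · exact h1
    · exact h2
  | succ i ih =>
    intro hi k hk p hp
    have hD := ih (by omega)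
    have hn2 : ∀ k, ContDiffOn ℝ 2 (ns ρ c i k) U := fun k =>
      cd_ns hρ hU hg hc i 2 (by omega) k
    have hw := row_wedge hρ hU (F := Hk ρ (ns ρ c i)) (n := ns ρ c (i + 1)) (k := k) hp
      (((cd_ns hρ hU hg hc (i + 1) 1 (by omega) k).contDiffAt (hU.mem_nhds hp)).differentiableAt
        (by norm_num))
      (fun q hq l => hD k (by omega) q hq l) (fun l => hD (k + 1) (by omega) p hp l)
      (fun l => hD (k - 1) (by omega) p hp l) (row_lin hc2 hρ hU hg hn2 k hp)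
    obtain ⟨h1, h2⟩ := normal (hg p hp) (g2_eq' p) hw
    intro l
    fin_cases l
    · exact h1
    · exact h2

theorem D_cs (hc2 : C2Stmt) (hρ : ContDiff ℝ ((⊤ : ℕ∞) : WithTop ℕ∞) ρ) (hU : IsOpen U)
    (hg : ∀ p ∈ U, g2 ρ p ≠ 0) {S J : ℕ} (hc : ∀ k, ContDiffOn ℝ (S : WithTop ℕ∞) (c k) U)
    (hS : 2 ≤ S)
    (ht : ∀ k < J, ∀ p ∈ U, Dk ρ c k 0 p * rjb ρ 1 p - Dk ρ c k 1 p * rjb ρ 0 p = 0) :
    ∀ i, i + 3 ≤ S → ∀ k, k + i < J → ∀ p ∈ U, ∀ l,
      Dk ρ (cs ρ c i) k l p =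
        ((-1) ^ i / ((i.factorial : ℕ) : ℂ)) * rc ρ p ^ i * ns ρ c i k p * rjb ρ l p := by
  intro i
  induction i with
  | zero =>
    intro hi k hk p hp l
    have := D_ns hg ht k (by omega) p hp l
    have e : cs ρ c 0 = c := by funext k p; rfl
    rw [e]
    simpa using this
  | succ i ih =>
    intro hi k hk p hp l
    have h1 := ih (by omega) k (by omega) p hp l
    have h2 := H_ns hc2 hρ hU hg hc hS ht i (by omega) k (by omega) p hp l
    have hdc : DifferentiableAt ℝ (cs ρ c i k) p :=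
      ((cd_cs hρ hU hg hc i 1 (by omega) k).contDiffAt (hU.mem_nhds hp)).differentiableAt
        (by norm_num)
    have hdn : DifferentiableAt ℝ (ns ρ c i k) p :=
      ((cd_ns hρ hU hg hc i 1 (by omega) k).contDiffAt (hU.mem_nhds hp)).differentiableAt
        (by norm_num)
    have hr : HD l (rc ρ) (rjb ρ l p) p :=
      hd_self ((sm_rc hρ p).differentiableAt (by norm_num))
    have hd : HD l (cs ρ c (i + 1) k) _ p :=
      (hd_self hdc).add (HD.cmul ((-1) ^ (i + 1) / ((i + 1).factorial : ℂ))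
        ((HD.pow hr i).mul (hd_self hdn)))
    have hdz := hd.e
    rw [Dk_eq] at h1 ⊢
    unfold Hk at h1 h2 ⊢
    rw [hdz]
    have e : ∀ j, cs ρ c (i + 1) j p = cs ρ c i j p +
      ((-1) ^ (i + 1) / ((i + 1).factorial : ℂ)) * (rc ρ p ^ (i + 1) * ns ρ c i j p) := fun j => rfl
    rw [e, e, e]
    have hfac : ((-1 : ℂ) ^ (i + 1) / ((i + 1).factorial : ℂ)) * ((i : ℂ) + 1) =
        -((-1) ^ i / ((i.factorial : ℕ) : ℂ)) := by
      have h3 : ((i.factorial : ℕ) : ℂ) ≠ 0 := by exact_mod_cast i.factorial_ne_zero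
      have h4 : ((i : ℂ) + 1) ≠ 0 := by exact_mod_cast Nat.succ_ne_zero i
      rw [Nat.factorial_succ]
      push_cast
      field_simp
      ring
    set a : ℂ := (-1 : ℂ) ^ (i + 1) / ((i + 1).factorial : ℂ) with ha
    set b : ℂ := (-1 : ℂ) ^ i / ((i.factorial : ℕ) : ℂ) with hb
    linear_combination h1 + a * rc ρ p ^ (i + 1) * h2 +
      (rc ρ p ^ i * rjb ρ l p * ns ρ c i k p) * hfac

end

theorem zero_compact {Ω : Set C2} {ρ : C2 → ℝ} (h : SmoothDom Ω ρ) :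
    IsCompact {p | ρ p = 0} := by
  have hcl : IsClosed {p | ρ p = 0} := isClosed_eq h.smooth.continuous continuous_const
  have hc : IsCompact (closure Ω) := h.bdd.isCompact_closure
  refine hc.of_isClosed_subset hcl ?_
  intro p hp
  by_contra hc
  have hp' : ρ p = 0 := hp
  have hev : ∀ᶠ q in 𝓝 p, q ∉ closure Ω := isClosed_closure.isOpen_compl.mem_nhds hc
  have hmin : IsLocalMin ρ p := by
    filter_upwards [hev] with q hq
    rw [hp']
    by_contra hlt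
    push Not at hlt
    apply hq
    apply subset_closure
    rw [h.eq]
    exact hlt
  exact h.grad p hp' hmin.fderiv_eq_zero

theorem c4 (hc2 : C2Stmt) (ht2 : T2aStmt) : T2Stmt := by
  intro Ω ρ h J M s
  obtain ⟨U, hU, hSU, hg, c, hc, ht⟩ := ht2 Ω ρ h (J + M) (s + M + 3)
  have hρ := h.smooth
  obtain ⟨K1, hK1c, hSK1, hK1U⟩ := exists_compact_between (zero_compact h) hU hSU
  refine ⟨interior K1, isOpen_interior, hSK1, cs ρ c M, ?_, ?_⟩
  · intro k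
    exact (cd_cs hρ hU hg hc M s (by omega) k).mono (interior_subset.trans hK1U)
  · have hD := D_cs hc2 hρ hU hg hc (by omega) ht M (by omega)
    have hb : ∀ (k : ℕ) (l : Fin 2), ∃ C : ℝ, ∀ p ∈ K1, ‖ns ρ c M k p * rjb ρ l p‖ ≤ C := by
      intro k l
      have h1 : ContinuousOn (ns ρ c M k) U :=
        (cd_ns hρ hU hg hc M 0 (by omega) k).continuousOn
      have h2 : ContinuousOn (rjb ρ l) U := (cd_rjb hρ l hU).continuousOn
      exact hK1c.exists_bound_of_continuousOn ((h1.mul h2).mono hK1U)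
    choose C hC using hb
    refine ⟨∑ k ∈ Finset.range J, ∑ l, |C k l|, ?_⟩
    intro k hk p hp l
    have hpK := interior_subset hp
    rw [hD k (by omega) p (hK1U hpK) l]
    have e : ((-1 : ℂ) ^ M / ((M.factorial : ℕ) : ℂ)) * rc ρ p ^ M * ns ρ c M k p * rjb ρ l p =
        ((-1) ^ M / ((M.factorial : ℕ) : ℂ)) * rc ρ p ^ M * (ns ρ c M k p * rjb ρ l p) := by ring
    rw [e, norm_mul, norm_mul, norm_div, norm_pow, norm_neg, norm_one, one_pow, norm_pow]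
    have h1 : ‖rc ρ p‖ = |ρ p| := by
      unfold rc
      rw [Complex.norm_real, Real.norm_eq_abs]
    have h2 : 1 / ‖((M.factorial : ℕ) : ℂ)‖ ≤ 1 := by
      rw [Complex.norm_natCast, div_le_one (by exact_mod_cast M.factorial_pos)]
      exact_mod_cast M.factorial_pos
    have h3 : ‖ns ρ c M k p * rjb ρ l p‖ ≤ ∑ k ∈ Finset.range J, ∑ l, |C k l| := by
      refine (hC k l p hpK).trans ((le_abs_self _).trans ?_)
      refine le_trans ?_ (Finset.single_le_sum (f := fun k => ∑ l, |C k l|)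
        (fun j _ => Finset.sum_nonneg fun _ _ => abs_nonneg _) (Finset.mem_range.mpr hk))
      exact Finset.single_le_sum (f := fun l => |C k l|) (fun _ _ => abs_nonneg _)
        (Finset.mem_univ l)
    rw [h1]
    have h4 : 0 ≤ |ρ p| ^ M := by positivity
    calc 1 / ‖((M.factorial : ℕ) : ℂ)‖ * |ρ p| ^ M * ‖ns ρ c M k p * rjb ρ l p‖
        ≤ 1 * |ρ p| ^ M * ‖ns ρ c M k p * rjb ρ l p‖ := by gcongr
      _ ≤ 1 * |ρ p| ^ M * ∑ k ∈ Finset.range J, ∑ l, |C k l| := by gcongr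
      _ = (∑ k ∈ Finset.range J, ∑ l, |C k l|) * |ρ p| ^ M := by ring

end Pool.Agent.AK.H17
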